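import Pool.Agent.H.MP_d8b6f8_al.Defs

set_option autoImplicit false

namespace Pool.Agent.H.MP_08b069_al
open Pool.Agent.H.MP_d8b6f8_al Function Subgroup QuotientGroup

def QC (C : Cls) : Prop :=
  ∀ (G H : Type) [Group G] [Group H] (f : G →* H), Surjective f → C G → C H

variable {G H : Type} [Group G] [Group H] {C : Cls} {n m p : ℕ} {x y : G}

theorem fs_surj {f : G →* H} (hf : Surjective f) (h : FS G) : FS H :=
  have := h.1; have := h.2; ⟨Finite.of_surjective f hf, Group.isSolvable_of_surjective hf⟩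

theorem fs_sub (h : FS G) (K : Subgroup G) : FS K :=
  have := h.1; have := h.2; ⟨inferInstance, inferInstance⟩

theorem qc_map (hC : QC C) (f : G →* H) {S : Subgroup G} (h : C S) : C (S.map f) :=
  hC _ _ (f.subgroupMap S) (f.subgroupMap_surjective S) h

theorem proj_img (hC : QC C) {S : Subgroup G} (h : Proj C S) (f : G →* H) (hf : Surjective f) :
    MaxSub C (S.map f) := by
  let e := QuotientGroup.quotientKerEquivOfSurjective f hf
  have a : (S.map (QuotientGroup.mk' f.ker)).map e.toMonoidHom = S.map f := by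
    rw [Subgroup.map_map]; rfl
  have b : (S.map f).map e.symm.toMonoidHom = S.map (QuotientGroup.mk' f.ker) := by
    rw [← a, Subgroup.map_map]; simp
  refine ⟨a ▸ qc_map hC _ (h f.ker).1, fun K hK hX => (h f.ker).2 _ ?_
    (qc_map hC e.symm.toMonoidHom hX)⟩
  rw [← b]
  exact (map_lt_map_iff_of_injective e.symm.injective).2 hK

theorem proj_map (hC : QC C) {S : Subgroup G} (h : Proj C S) (f : G →* H) (hf : Surjective f) :
    Proj C (S.map f) := fun N _ => by
  rw [Subgroup.map_map]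
  exact proj_img hC h _ ((mk'_surjective N).comp hf)

theorem proj_max (hC : QC C) {S : Subgroup G} (h : Proj C S) : MaxSub C S :=
  Subgroup.map_id S ▸ proj_img hC h (.id G) surjective_id

theorem max_top (hC : QC C) {S : Subgroup G} (h : MaxSub C S) (hG : C G) : S = ⊤ :=
  by_contra fun e => h.2 ⊤ (lt_top_iff_ne_top.2 e)
    (hC _ _ (topEquiv (G := G)).symm.toMonoidHom (fun x => ⟨x.1, rfl⟩) hG)

theorem of_top (hC : QC C) {S : Subgroup G} (h : C S) (e : S = ⊤) : C G :=
  hC _ _ S.subtype (fun x => ⟨⟨x, e ▸ mem_top x⟩, rfl⟩) h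

theorem prim_map {f : G →* H} (s : Surjective f) {M : Subgroup G} (hM : IsCoatom M)
    (hk : f.ker = M.normalCore) : Primitive H := by
  have k : f.ker ≤ M := hk ▸ normalCore_le M
  refine ⟨M.map f, ⟨fun e => hM.1 (by rw [← comap_map_eq_self k, e, comap_top]), fun K hK => ?_⟩, ?_⟩
  · have := hM.2 (K.comap f) ((map_le_iff_le_comap.1 hK.le).lt_of_ne fun e => hK.ne (by
      rw [e, map_comap_eq_self_of_surjective s]))
    rw [← map_comap_eq_self_of_surjective s K, this, map_top_of_surjective f s]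
  · rw [← map_comap_eq_self_of_surjective s (normalCore _), Subgroup.map_eq_bot_iff, hk,
      normal_le_normalCore]
    exact (comap_mono (normalCore_le _)).trans (comap_map_eq_self k).le

theorem prim_core {M : Subgroup G} (hM : IsCoatom M) : Primitive (G ⧸ M.normalCore) :=
  prim_map (mk'_surjective _) hM (ker_mk' _)

theorem prim_central (h : Primitive G) {z : G} (hz : z ∈ center G) (h1 : z ≠ 1) :
    zpowers z = ⊤ := by
  obtain ⟨M, hM, e⟩ := h
  have n : (zpowers z).Normal := ⟨fun x hx g => by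
    rwa [mem_center_iff.1 (zpowers_le.2 hz hx) g, mul_inv_cancel_right]⟩
  have a : M ⊔ zpowers z = ⊤ := hM.2 _ (lt_of_le_of_ne le_sup_left fun b => h1 (mem_bot.1
    (e ▸ normal_le_normalCore.2 (le_sup_right.trans b.ge) (mem_zpowers z))))
  have : M.Normal := normalizer_eq_top_iff.1 (eq_top_iff.2 (a ▸ sup_le le_normalizer
    ((zpowers_le.2 hz).trans (center_le_normalizer _))))
  rwa [← normalCore_eq_self M, e, bot_sup_eq] at a

theorem prim_card [Fact p.Prime] (h : Primitive G) {z : G} (hz : z ∈ center G) (h1 : z ≠ 1)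
    (hp : z ^ p = 1) : Nat.card G = p := by
  rw [← orderOf_eq_prime hp h1, ← Nat.card_zpowers, prim_central h hz h1, card_top]

theorem prim_p [Finite G] [Fact p.Prime] (h : Primitive G) (hp : IsPGroup p G) :
    Nat.card G = p := by
  have : Nontrivial G := by
    obtain ⟨M, hM, -⟩ := h
    exact not_subsingleton_iff_nontrivial.1 fun _ => hM.1 (Subsingleton.elim _ _)
  have := hp.center_nontrivial
  obtain ⟨k, h0, hk⟩ := (hp.to_subgroup (center G)).nontrivial_iff_card.1 this
  obtain ⟨z, hz⟩ := exists_prime_orderOf_dvd_card' (G := center G) p (hk ▸ dvd_pow_self p h0.ne')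
  exact prim_card h z.2 (fun e => (Fact.out : p.Prime).one_lt.ne' (by
    rw [← hz, orderOf_eq_one_iff]; exact Subtype.ext e))
    (congrArg Subtype.val (hz ▸ pow_orderOf_eq_one z : z ^ p = 1))

def Big (n : ℕ) (g : G) : Prop := (orderOf g).Coprime n.factorial

theorem Big.map (f : G →* H) (h : Big n x) : Big n (f x) :=
  h.coprime_dvd_left (orderOf_map_dvd f x)

theorem big_inj (f : G →* H) (hf : Injective f) : Big n (f x) ↔ Big n x := by
  rw [Big, orderOf_injective f hf]; rfl

theorem Big.mono (h : Big n x) (hm : m ≤ n) : Big m x :=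
  h.coprime_dvd_right (Nat.factorial_dvd_factorial hm)

theorem Big.pow (h : Big n x) (k : ℕ) : Big n (x ^ k) := h.coprime_dvd_left (orderOf_pow_dvd k)

theorem Big.inv (h : Big n x) : Big n x⁻¹ := by rwa [Big, orderOf_inv]

theorem Big.conj (h : Big n x) (g : G) : Big n (g * x * g⁻¹) := h.map (MulAut.conj g).toMonoidHom

theorem big_one : Big n (1 : G) := by simp [Big]

theorem Big.comm (c : Commute x y) (h : Big n x) (h' : Big n y) : Big n (x * y) :=
  (Nat.Coprime.mul_left h h').coprime_dvd_left c.orderOf_mul_dvd_mul_orderOf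

theorem cop (hp : p.Prime) (h : n < p) : p.Coprime n.factorial :=
  hp.coprime_iff_not_dvd.2 fun e => h.not_ge (hp.dvd_factorial.1 e)

theorem big_of {k : ℕ} (hp : p.Prime) (h : n < p) (e : x ^ p ^ k = 1) : Big n x :=
  ((cop hp h).pow_left k).coprime_dvd_left (orderOf_dvd_of_pow_eq_one e)

theorem Big.lt (h : Big n x) (hp : p.Prime) (e : p ∣ orderOf x) : n < p :=
  not_le.1 fun a => hp.one_lt.ne' (Nat.eq_one_of_dvd_coprimes h e (hp.dvd_factorial.2 a))

theorem Big.triv {k : ℕ} (h : Big n x) (hp : p.Prime) (hn : p ≤ n) (e : x ^ p ^ k = 1) : x = 1 :=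
  orderOf_eq_one_iff.1 (((h.coprime_dvd_right (hp.dvd_factorial.2 hn)).pow_right k).eq_one_of_dvd
    (orderOf_dvd_of_pow_eq_one e))

theorem spl (N a : ℕ) (h : 0 < a) : ∃ b c k, a = b * c ∧ b.Coprime N ∧ c ∣ N ^ k := by
  induction a using Nat.strong_induction_on with
  | _ a ih =>
    by_cases e : a.Coprime N
    · exact ⟨a, 1, 0, by simp, e, by simp⟩
    obtain ⟨d, hd⟩ := Nat.gcd_dvd_left a N
    have h1 : 0 < a.gcd N := Nat.gcd_pos_of_pos_left _ h
    have h2 : 0 < d := Nat.pos_of_ne_zero (by rintro rfl; omega)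
    obtain ⟨b, c, k, e1, e2, e3⟩ := ih d (by
      have : 1 < a.gcd N := by unfold Nat.Coprime at e; omega
      nlinarith) h2
    exact ⟨b, c * a.gcd N, k + 1, by rw [← mul_assoc, ← e1, mul_comm, ← hd], e2,
      pow_succ N k ▸ mul_dvd_mul e3 (Nat.gcd_dvd_right a N)⟩

theorem lift [Finite G] (f : G →* H) (h : Big n (f x)) : ∃ k, Big n (x ^ k) ∧ f (x ^ k) = f x := by
  obtain ⟨b, c, k, e1, e2, e3⟩ := spl n.factorial _ (orderOf_pos x)
  obtain ⟨j, hj⟩ := exists_pow_eq_self_of_coprime ((h.pow_right k).symm.coprime_dvd_left e3)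
  refine ⟨c * j, ?_, by rw [map_pow, pow_mul, hj]⟩
  rw [pow_mul]
  refine Big.pow (e2.coprime_dvd_left (orderOf_dvd_of_pow_eq_one ?_)) j
  rw [← pow_mul, mul_comm, ← e1, pow_orderOf_eq_one]

theorem up (f : G →* H) (hp : p.Prime) (hn : n < p) (hf : IsPGroup p f.ker) (h : Big n (f x)) :
    Big n x := by
  obtain ⟨k, hk⟩ := hf ⟨x ^ orderOf (f x), by rw [MonoidHom.mem_ker, map_pow, pow_orderOf_eq_one]⟩
  refine (Nat.Coprime.mul_left h ((cop hp hn).pow_left k)).coprime_dvd_left
    (orderOf_dvd_of_pow_eq_one ?_)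
  rw [pow_mul]; exact congrArg Subtype.val hk

theorem step [Finite G] (hp : p.Prime) (h : Big (p - 1) x) : ∃ k, Big p (x ^ p ^ k) := by
  obtain ⟨k, m, hm, e⟩ := Nat.exists_eq_pow_mul_and_not_dvd (orderOf_pos x).ne' p hp.one_lt.ne'
  refine ⟨k, Nat.Coprime.coprime_dvd_left (orderOf_dvd_of_pow_eq_one (n := m) (by
    rw [← pow_mul, ← e, pow_orderOf_eq_one])) ?_⟩
  rw [← Nat.mul_factorial_pred hp.ne_zero]
  exact Nat.Coprime.mul_right (hp.coprime_iff_not_dvd.2 hm).symm
    (h.coprime_dvd_left (Dvd.intro_left _ e.symm))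

end Pool.Agent.H.MP_08b069_al
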