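import Pool.Agent.H.MP_08b069_al.A

set_option autoImplicit false

namespace Pool.Agent.H.MP_08b069_al
open Pool.Agent.H.MP_d8b6f8_al Function Subgroup QuotientGroup

variable {G H : Type} [Group G] [Group H] {n m p : ℕ}

def Cl (F : Subgroup G) : Prop := ∀ n, ∀ x ∈ F, ∀ y ∈ F, Big n x → Big n y → Big n (x * y)

def T (m : ℕ) : Cls := fun G _ => FS G ∧ Cl (⊤ : Subgroup G) ∧ ∀ x : G, Big m x

theorem Cl.map [Finite G] {F : Subgroup G} (h : Cl F) (f : G →* H) : Cl (F.map f) := by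
  rintro n _ ⟨x, hx, rfl⟩ _ ⟨y, hy, rfl⟩ a b
  obtain ⟨k, a, e⟩ := lift f a
  obtain ⟨l, b, e'⟩ := lift f b
  rw [← e, ← e', ← map_mul]
  exact (h n _ (pow_mem hx k) _ (pow_mem hy l) a b).map f

theorem qT : QC (T m) := fun _ _ _ _ f hf h =>
  have := h.1.1
  ⟨fs_surj hf h.1, map_top_of_surjective f hf ▸ h.2.1.map f, fun y =>
    (hf y).elim fun x e => e ▸ (h.2.2 x).map f⟩

theorem T_iff (h : FS G) {F : Subgroup G} : T m F ↔ Cl F ∧ ∀ x ∈ F, Big m x :=
  have a : ∀ {n} {x : F}, Big n x.1 ↔ Big n x := big_inj F.subtype F.subtype_injective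
  ⟨fun b => ⟨fun n x hx y hy c d => (a (x := ⟨x, hx⟩ * ⟨y, hy⟩)).2
    (b.2.1 n _ trivial _ trivial (a.1 c) (a.1 d)), fun x hx => (a (x := ⟨x, hx⟩)).2 (b.2.2 _)⟩,
    fun b => ⟨fs_sub h F, fun n x _ y _ c d => a.1 (b.1 n _ x.2 _ y.2 (a.2 c) (a.2 d)),
      fun x => a.1 (b.2 _ x.2)⟩⟩

def bigs {F : Subgroup G} (h : Cl F) (n : ℕ) : Subgroup G where
  carrier := {x | x ∈ F ∧ Big n x}
  mul_mem' a b := ⟨mul_mem a.1 b.1, h n _ a.1 _ b.1 a.2 b.2⟩
  one_mem' := ⟨one_mem _, big_one⟩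
  inv_mem' a := ⟨inv_mem a.1, a.2.inv⟩

instance (h : Cl (⊤ : Subgroup G)) (n : ℕ) : (bigs h n).Normal :=
  ⟨fun _ a g => ⟨trivial, a.2.conj g⟩⟩

theorem cl_sch (k : ℕ) : ∀ (G : Type) [Group G] [Finite G], Nat.card G ≤ k →
    (∀ (H : Type) [Group H] (f : G →* H), Surjective f → Primitive H → Cl (⊤ : Subgroup H)) →
    Cl (⊤ : Subgroup G) := by
  induction k with
  | zero => exact fun G _ _ h => absurd h Nat.card_pos.not_ge
  | succ k ih =>
  intro G _ _ hk h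
  rcases subsingleton_or_nontrivial G with _ | _
  · exact fun n x _ y _ _ _ => Subsingleton.elim 1 (x * y) ▸ big_one
  obtain ⟨r, hr, hm⟩ := (Nat.card G).primeFactors.exists_max_image id
    (Nat.nonempty_primeFactors.2 Finite.one_lt_card)
  have hp := Nat.prime_of_mem_primeFactors hr
  have : Fact r.Prime := ⟨hp⟩
  have le : ∀ {d : ℕ}, d.Prime → d ∣ Nat.card G → d ≤ r := fun a b =>
    hm _ (Nat.mem_primeFactors.2 ⟨a, b, Nat.card_pos.ne'⟩)
  obtain ⟨P⟩ : Nonempty (Sylow r G) := inferInstance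
  have : P.1.Normal := by
    rcases eq_top_or_exists_le_coatom (normalizer (P : Set G)) with e | ⟨M, hM, e⟩
    · exact normalizer_eq_top_iff.1 e
    have s := mk'_surjective M.normalCore
    let Q := bigs (h _ _ s (prim_core hM)) (r - 1)
    have a : IsPGroup r Q := fun g => ⟨_, Subtype.ext (orderOf_dvd_iff_pow_eq_one.1
      (Nat.eq_prime_pow_of_unique_prime_dvd (orderOf_pos g.1).ne' fun {d} hd e => by
        have := g.2.2.lt hd e
        have := le hd (e.trans ((_root_.orderOf_dvd_natCard _).trans (card_quotient_dvd_card _)))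
        omega).dvd)⟩
    refine absurd (eq_top_iff.2 ((P.normalizer_sup_eq_top' (N := Q.comap (mk' _))
      fun x hx => ?_).ge.trans (sup_le e ?_))) hM.1
    · obtain ⟨j, hj⟩ := P.2 ⟨x, hx⟩
      exact ⟨trivial, (big_of hp (Nat.sub_one_lt hp.ne_zero) (congrArg Subtype.val hj)).map _⟩
    · refine (comap_mono (a.le_sylow_of_normal (P.mapSurjective s))).trans ?_
      rw [Sylow.coe_mapSurjective, comap_map_eq, ker_mk']
      exact sup_le (le_normalizer.trans e) (normalCore_le M)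
  have a := ih (G ⧸ P.1) (by
    have := card_eq_card_quotient_mul_card_subgroup P.1
    have := (one_lt_card_iff_ne_bot P.1).2 (P.ne_bot_of_dvd_card (Nat.dvd_of_mem_primeFactors hr))
    have : 0 < Nat.card (G ⧸ P.1) := Nat.card_pos
    nlinarith) fun H _ f hf => h H (f.comp (mk' _)) (hf.comp (mk'_surjective _))
  intro n x _ y _ b c
  by_cases e : n < r
  · exact up (mk' P.1) hp e (by rw [ker_mk']; exact P.2)
      (a n _ trivial _ trivial (b.map (mk' P.1)) (c.map (mk' P.1)))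
  · have : x = 1 := orderOf_eq_one_iff.1 (Nat.eq_one_iff_not_exists_prime_dvd.2 fun d hd e' =>
      e ((b.lt hd e').trans_le (le hd (e'.trans (_root_.orderOf_dvd_natCard _)))))
    rwa [this, one_mul]

theorem T_sch : IsSchunck (T m) := by
  refine ⟨fun _ _ h => h.1, qT, fun G _ h h' => ?_⟩
  have := h.1
  have a := cl_sch _ G le_rfl fun H _ f hf hp => (h' H f hf hp).2.1
  refine ⟨h, a, ?_⟩
  rcases eq_top_or_exists_le_coatom (bigs a m) with e | ⟨M, hM, e⟩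
  · exact fun x => (e.ge (mem_top x)).2
  refine absurd (eq_top_iff.2 fun g _ => ?_) hM.1
  obtain ⟨k, b, c⟩ := lift _ ((h' _ _ (mk'_surjective _) (prim_core hM)).2.2 (mk' _ g))
  refine normalCore_le M ((eq_one_iff _).1 (c.symm.trans ((eq_one_iff _).2 ?_)))
  exact normal_le_normalCore.2 e ⟨trivial, b⟩

theorem exN (h : FS G) [Nontrivial G] :
    ∃ q, q.Prime ∧ ∃ N : Subgroup G, N.Normal ∧ N ≠ ⊥ ∧ ∀ x ∈ N, x ^ q ^ 1 = 1 := by
  have := h.1
  have := h.2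
  obtain ⟨A, -, hA⟩ := Finite.exists_le_minimal (p := fun A : Subgroup G => A.Normal ∧ A ≠ ⊥)
    ⟨inferInstance, top_ne_bot⟩
  have := hA.prop.1
  have c : ⁅A, A⁆ = ⊥ := by_contra fun e => hA.not_prop_of_lt
    (Group.IsSolvable.commutator_lt_of_ne_bot hA.prop.2) ⟨inferInstance, e⟩
  have c : ∀ x ∈ A, ∀ y ∈ A, Commute x y := fun x hx y hy =>
    commutatorElement_eq_one_iff_commute.1 (mem_bot.1 (c ▸ commutator_mem_commutator hx hy))
  obtain ⟨q, hq, hd⟩ := Nat.exists_prime_and_dvd ((one_lt_card_iff_ne_bot A).2 hA.prop.2).ne'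
  have : Fact q.Prime := ⟨hq⟩
  obtain ⟨z, hz⟩ := exists_prime_orderOf_dvd_card' q hd
  refine ⟨q, hq, ⟨⟨⟨{x | x ∈ A ∧ x ^ q = 1}, fun a b => ⟨mul_mem a.1 b.1, by
    rw [(c _ a.1 _ b.1).mul_pow, a.2, b.2, mul_one]⟩⟩, one_mem _, one_pow _⟩, fun a =>
      ⟨inv_mem a.1, by rw [inv_pow, a.2, inv_one]⟩⟩, ⟨fun x a g => ⟨hA.prop.1.conj_mem _ a.1 g, by
        rw [conj_pow, a.2, mul_one, mul_inv_cancel]⟩⟩, fun e => ?_, fun x a => by
          rw [pow_one]; exact a.2⟩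
  exact hq.one_lt.ne' (by
    rw [← hz, orderOf_eq_one_iff]
    exact Subtype.ext (mem_bot.1 (e ▸ ⟨z.2,
      congrArg Subtype.val (hz ▸ pow_orderOf_eq_one z : z ^ q = 1)⟩)))

theorem maxB (hm : m ≤ n) (k : ℕ) : ∀ (G : Type) [Group G], Nat.card G ≤ k → FS G →
    ∀ F E : Subgroup G, Proj (T m) F → (∀ x, x ∈ E ↔ x ∈ F ∧ Big n x) →
    ∀ K, E ≤ K → T n K → K ≤ E := by
  induction k with
  | zero => exact fun G _ h h' => have := h'.1; absurd h Nat.card_pos.not_ge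
  | succ k ih =>
  intro G _ hk h F E hF hE K hK hT y hy
  have := h.1
  rcases subsingleton_or_nontrivial G with _ | _
  · exact Subsingleton.elim 1 y ▸ one_mem E
  obtain ⟨q, hq, N, hN, h1, h2⟩ := exN h
  have s := mk'_surjective N
  obtain ⟨e, he, a⟩ := ih (G ⧸ N) (by
    have := card_eq_card_quotient_mul_card_subgroup N
    have := (one_lt_card_iff_ne_bot N).2 h1
    have : 0 < Nat.card (G ⧸ N) := Nat.card_pos
    nlinarith) (fs_surj s h) _ (E.map (mk' N)) (proj_map qT hF _ s) (fun x => ⟨by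
      rintro ⟨z, hz, rfl⟩
      exact ⟨⟨z, ((hE z).1 hz).1, rfl⟩, ((hE z).1 hz).2.map _⟩, by
      rintro ⟨⟨z, hz, rfl⟩, b⟩
      obtain ⟨j, b, c⟩ := lift _ b
      exact ⟨_, (hE _).2 ⟨pow_mem hz j, b⟩, c⟩⟩) _ (map_mono hK) (qc_map qT _ hT) ⟨y, hy, rfl⟩
  have a : e⁻¹ * y ∈ N := QuotientGroup.eq.1 a
  have b : e⁻¹ * y ∈ K := mul_mem (inv_mem (hK he)) hy
  suffices e⁻¹ * y ∈ E by simpa using mul_mem he this
  generalize e⁻¹ * y = v at a b
  obtain ⟨t1, t2⟩ := (T_iff h).1 hT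
  by_cases c : q ≤ n
  · rw [(t2 v b).triv hq c (h2 v a)]; exact one_mem _
  have c := not_le.1 c
  have hF := proj_max qT hF
  obtain ⟨f1, f2⟩ := (T_iff h).1 hF.1
  let C := N ⊓ centralizer {r | r ∈ F ∧ Big q r}
  have d : F ≤ normalizer (C : Set G) := by
    have : ∀ f ∈ F, ∀ x ∈ C, f * x * f⁻¹ ∈ C := fun f hf x hx => ⟨hN.conj_mem _ hx.1 f,
      fun r hr => by
        have := hx.2 (f⁻¹ * r * f⁻¹⁻¹) ⟨mul_mem (mul_mem (inv_mem hf) hr.1) (inv_mem (inv_mem hf)),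
          hr.2.conj _⟩
        calc r * (f * x * f⁻¹) = f * (f⁻¹ * r * f⁻¹⁻¹ * x) * f⁻¹ := by group
          _ = _ := by rw [this]; group⟩
    exact fun f hf => mem_normalizer_iff.2 fun x => ⟨this f hf x, fun hx => by
      simpa [mul_assoc] using this _ (inv_mem hf) _ hx⟩
  have d : ∀ x ∈ C ⊔ F, ∃ c ∈ C, ∃ f ∈ F, c * f = x := fun x hx => by
    rwa [← SetLike.mem_coe, coe_mul_of_right_le_normalizer_left C F d] at hx
  have g : ∀ x ∈ C ⊔ F, mk' N x ∈ F.map (mk' N) := fun x hx => by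
    obtain ⟨c, hc, f, hf, rfl⟩ := d x hx
    exact ⟨f, hf, by rw [map_mul, show mk' N c = 1 from (eq_one_iff _).2 hc.1, one_mul]⟩
  have u : IsPGroup q (mk' N).ker := by
    rw [ker_mk']; exact fun x => ⟨1, Subtype.ext (h2 _ x.2)⟩
  have w : T m (C ⊔ F : Subgroup G) := (T_iff h).2 ⟨fun j x hx z hz bx bz => by
    by_cases l : j < q
    · exact up _ hq l u (map_mul (mk' N) x z ▸ f1.map _ j _ (g x hx) _ (g z hz) (bx.map _) (bz.map _))
    have : ∀ x ∈ C ⊔ F, Big j x → x ∈ F := fun x hx bx => by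
      obtain ⟨c, hc, f, hf, rfl⟩ := d x hx
      have e : mk' N (c * f) = mk' N f := by
        rw [map_mul, show mk' N c = 1 from (eq_one_iff _).2 hc.1, one_mul]
      obtain ⟨i, b1, b2⟩ := lift (mk' N) (e ▸ bx.map (mk' N))
      have o : Commute (c * f) (f ^ i) := Commute.mul_left
        (hc.2 _ ⟨pow_mem hf i, b1.mono (not_lt.1 l)⟩).symm (Commute.self_pow f i)
      have := (b1.inv.comm o.symm.inv_left bx).triv hq (not_lt.1 l)
        (h2 _ (QuotientGroup.eq.1 (b2.trans e.symm)))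
      exact inv_mul_eq_one.1 this ▸ pow_mem hf i
    exact f1 j x (this x hx bx) z (this z hz bz) bx bz, fun x hx => by
      obtain ⟨f, hf, e⟩ := g x hx
      exact up _ hq (hm.trans_lt c) u (e ▸ (f2 f hf).map _)⟩
  have w : C ≤ F := by_contra fun e => hF.2 _ (right_lt_sup.2 e) w
  refine (hE v).2 ⟨w ⟨a, fun r hr => ?_⟩, big_of hq c (h2 v a)⟩
  have k : r ∈ K := hK ((hE r).2 ⟨hr.1, hr.2.mono c.le⟩)
  have := (t1 q _ (mul_mem (mul_mem b k) (inv_mem b)) _ (inv_mem k) (hr.2.conj v) hr.2.inv).triv hq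
    le_rfl (h2 _ (by
      simpa only [mul_assoc] using mul_mem a (hN.conj_mem _ (inv_mem a) r)))
  rw [mul_inv_eq_one, mul_inv_eq_iff_eq_mul] at this
  exact this.symm

end Pool.Agent.H.MP_08b069_al
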