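import Pool.Agent.H.MP_08b069_al.B

set_option autoImplicit false

namespace Pool.Agent.H.MP_08b069_al
open Pool.Agent.H.MP_d8b6f8_al Function Subgroup QuotientGroup RegularWreathProduct

variable {G H : Type} [Group G] [Group H] {n p : ℕ} {C : Cls}

def LL (C D : Cls) : Prop := ∀ (G : Type) [Group G], FS G →
  ∃ E F : Subgroup G, Proj C E ∧ Proj D F ∧ E ≤ F

def Has (C : Cls) (p : ℕ) : Prop := ∀ (G : Type) [Group G], Nat.card G = p → C G

theorem pgp [Fact p.Prime] (hC : IsSchunck C) (hp : Has C p) (h : FS G) (h' : IsPGroup p G) :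
    C G :=
  hC.2.2 G h fun H _ f hf a => have := (fs_surj hf h).1; hp H (prim_p a (h'.of_surjective f hf))

theorem quotP [Finite G] (hp : p.Prime) (h : Cl (⊤ : Subgroup G)) (h' : ∀ x : G, Big (p - 1) x)
    (f : G →* H) (hf : Surjective f) (e : bigs h p ≤ f.ker) : IsPGroup p H := fun y => by
  obtain ⟨x, rfl⟩ := hf y
  obtain ⟨k, hk⟩ := step hp (h' x)
  exact ⟨k, (map_pow f x _).symm.trans (e ⟨trivial, hk⟩)⟩

theorem prodZ [Fact p.Prime] (hC : IsSchunck C) (hp : Has C p) (h : C G) :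
    C (G × Multiplicative (ZMod p)) := by
  have := (hC.1 G h).1
  have := (hC.1 G h).2
  refine hC.2.2 _ ⟨inferInstance, inferInstance⟩ fun H _ f hf a => ?_
  by_cases e : ∀ z, f (1, z) = 1
  · refine hC.2.1 _ _ (f.comp (.inl _ _)) (fun y => ?_) h
    obtain ⟨x, rfl⟩ := hf y
    exact ⟨x.1, by rw [← Prod.fst_mul_snd x, map_mul, e, mul_one]; simp⟩
  · push Not at e
    obtain ⟨z, hz⟩ := e
    refine hp H (prim_card a (mem_center_iff.2 fun y => ?_) hz ?_)
    · obtain ⟨x, rfl⟩ := hf y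
      rw [← map_mul, ← map_mul]
      exact congrArg f (Prod.ext ((mul_one _).trans (one_mul _).symm) (mul_comm _ _))
    · rw [← map_pow, Prod.pow_mk, one_pow, show z ^ p = 1 by
        simpa using pow_card_eq_one' (x := z)]
      exact map_one f

def base (D Q : Type) [Group D] [Group Q] : (Q → D) →* RegularWreathProduct D Q :=
  MonoidHom.mk' (fun v => ⟨v, 1⟩) fun a b => by ext <;> simp

theorem key [hp : Fact p.Prime] (hC : IsSchunck C) (h : Has C p) (hL : LL C (T 0))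
    (hS : T (p - 1) G) : C G := by
  classical
  have := hS.1.1
  have := hS.1.2
  let Z := Multiplicative (ZMod p)
  have ker : ∀ g : RegularWreathProduct Z G, g.right = 1 → base Z G g.left = g := fun g e =>
    RegularWreathProduct.ext rfl e.symm
  have W : FS (RegularWreathProduct Z G) := ⟨inferInstance,
    Group.isSolvable_of_ker_le_range (base Z G) rightHom fun g e => ⟨_, ker g e⟩⟩
  have := W.1
  obtain ⟨E, F, hE, hF, le⟩ := hL _ W
  have s : Surjective (rightHom : RegularWreathProduct Z G →* G) := fun g => ⟨inl g, rfl⟩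
  have a := max_top qT (proj_img qT hF _ s) ⟨hS.1, hS.2.1, fun x => (hS.2.2 x).mono p.pred.zero_le⟩
  have s' := mk'_surjective (bigs hS.2.1 p)
  have b := max_top hC.2.1 (proj_img hC.2.1 hE ((mk' _).comp rightHom) (s'.comp s)) (pgp hC h (fs_surj s' hS.1)
      (quotP hp.out _ hS.2.2 _ s' (ker_mk' _).ge))
  refine of_top hC.2.1 (proj_img hC.2.1 hE _ s).1 ?_
  rw [← Subgroup.map_map] at b
  rw [← comap_map_eq_self (f := mk' (bigs hS.2.1 p)) (H := E.map rightHom) ?_, b, comap_top]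
  rw [ker_mk']
  intro r hr
  by_contra hr'
  let ψ : Z →* RegularWreathProduct Z G := (base Z G).comp (MonoidHom.mk'
    (fun z x => if x ∈ E.map rightHom then z else 1) fun a b => by ext; simp; split_ifs <;> simp)
  have c : ∀ (e : E) z, Commute (E.subtype e) (ψ z) := fun e z => by
    have : ∀ x, e.1.right⁻¹ * x ∈ E.map rightHom ↔ x ∈ E.map rightHom := fun x =>
      mul_mem_cancel_left (inv_mem ⟨e, e.2, rfl⟩)
    refine RegularWreathProduct.ext (funext fun x => ?_) (by simp [ψ, base])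
    simp only [ψ, base, mul_left, Pi.mul_apply, MonoidHom.comp_apply, MonoidHom.mk'_apply,
      coe_subtype, this, inv_one, one_mul]
    exact mul_comm _ _
  have hE := proj_max hC.2.1 hE
  have d : ψ (.ofAdd 1) ∈ E := by_contra fun e => hE.2 (E ⊔ ψ.range)
    (left_lt_sup.2 fun d => e (d ⟨_, rfl⟩)) (by
      have := hC.2.1 _ _ _ (E.subtype.noncommCoprod ψ c).rangeRestrict_surjective (prodZ hC h hE.1)
      rwa [MonoidHom.noncommCoprod_range, range_subtype] at this)
  obtain ⟨g, hg, rfl⟩ : r ∈ F.map rightHom := a ▸ mem_top r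
  obtain ⟨k, b1, b2⟩ := lift rightHom hr.2
  replace hg := pow_mem hg k
  generalize g ^ k = u at *
  have d := le d
  have e := (((T_iff W).1 (proj_max qT hF).1).1 p _ (mul_mem (mul_mem d hg) (inv_mem d)) _
    (inv_mem hg) (b1.conj _) b1.inv).triv (k := 1) hp.out le_rfl (by
      rw [← ker (_ * u⁻¹) (by simp [ψ, base]), ← map_pow, ← map_one (base Z G)]
      congr 1
      funext x
      simpa [Z] using pow_card_eq_one' (G := Z))
  rw [mul_inv_eq_one, mul_inv_eq_iff_eq_mul] at e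
  have e := congrArg (fun g => g.left u.right) e
  rw [← b2] at hr'
  simp [ψ, base, show ¬ ∃ x ∈ E, x.right = u.right from hr',
    show ∃ x ∈ E, x.right = 1 from ⟨1, one_mem _, rfl⟩] at e
  exact one_ne_zero (congrArg Multiplicative.toAdd e : (1 : ZMod p) = 0)

theorem TZ [hp : Fact p.Prime] (h : n < p) : T n (Multiplicative (ZMod p)) :=
  ⟨⟨inferInstance, inferInstance⟩, fun _ _ _ _ _ => Big.comm (mul_comm _ _), fun x =>
    big_of (k := 1) hp.out h (by simpa using pow_card_eq_one' (x := x))⟩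

theorem ident (hC : IsSchunck C) (hL : LL C (T 0)) (h : ∃ (G : Type) (_ : Group G), C G ∧
    Nontrivial G) : ∃ p, p.Prime ∧ C = T (p - 1) := by
  classical
  have a : ∀ (G : Type) [Group G], C G → Cl (⊤ : Subgroup G) := fun G _ h => by
    obtain ⟨E, F, hE, hF, le⟩ := hL G (hC.1 G h)
    exact (of_top qT (proj_max qT hF).1 (eq_top_iff.2
      ((max_top hC.2.1 (proj_max hC.2.1 hE) h).ge.trans le))).2.1
  have b : ∃ p, p.Prime ∧ ∃ (G : Type) (_ : Group G), C G ∧ p ∣ Nat.card G := by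
    obtain ⟨G, _, h, _⟩ := h
    have := (hC.1 G h).1
    obtain ⟨p, hp, e⟩ := Nat.exists_prime_and_dvd (Finite.one_lt_card (α := G)).ne'
    exact ⟨p, hp, G, inferInstance, h, e⟩
  obtain ⟨hp, G, _, hG, e⟩ := Nat.find_spec b
  have c := fun m => Nat.find_min b (m := m)
  generalize Nat.find b = p at *
  have : Fact p.Prime := ⟨hp⟩
  have c : ∀ (G : Type) [Group G], C G → T (p - 1) G := fun G _ h => ⟨hC.1 G h, a G h, fun x =>
    Nat.Coprime.symm (Nat.coprime_of_dvd fun d hd e e' => c d (by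
      have := hd.dvd_factorial.1 e
      have := hp.pos
      omega) ⟨hd, G, inferInstance, h, e'.trans (_root_.orderOf_dvd_natCard x)⟩)⟩
  refine ⟨p, hp, funext fun S => funext fun _ => propext ⟨c S, key hC (fun K _ hK => ?_) hL⟩⟩
  have := (hC.1 G hG).1
  rcases eq_top_or_exists_le_coatom (bigs (a G hG) p) with d | ⟨M, hM, d⟩
  · obtain ⟨z, hz⟩ := exists_prime_orderOf_dvd_card' p e
    exact absurd ((d.ge (mem_top z)).2.lt hp hz.symm.dvd) (lt_irrefl p)
  have s := mk'_surjective M.normalCore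
  have i := mulEquivOfPrimeCardEq (prim_p (prim_core hM) (quotP hp _ (c G hG).2.2 _ s
    (by rw [ker_mk']; exact normal_le_normalCore.2 d))) hK
  exact hC.2.1 _ _ i.toMonoidHom i.surjective (hC.2.1 _ _ _ s hG)

theorem below (h : LL (T n) (T 0)) : LL (T (n + 1)) (T n) := fun G _ hG => by
  obtain ⟨E, -, hE, -⟩ := h G hG
  have := hG.1
  have a := ((T_iff hG).1 (proj_max qT hE).1).1
  refine ⟨bigs a (n + 1), E, fun N _ => ?_, hE, fun x hx => hx.1⟩
  have s := mk'_surjective N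
  refine ⟨qc_map qT _ ((T_iff hG).2 ⟨fun j x hx y hy => a j x hx.1 y hy.1, fun x hx => hx.2⟩),
    fun K hK hT => hK.not_ge (maxB n.le_succ _ _ le_rfl (fs_surj s hG) _ _ (proj_map qT hE _ s)
      (fun x => ⟨?_, ?_⟩) K hK.le hT)⟩
  · rintro ⟨z, hz, rfl⟩
    exact ⟨⟨z, hz.1, rfl⟩, hz.2.map _⟩
  · rintro ⟨⟨z, hz, rfl⟩, b⟩
    obtain ⟨j, b, c⟩ := lift _ b
    exact ⟨_, ⟨pow_mem hz j, b⟩, c⟩

theorem main (hC : IsSchunck C) (hL : LL C (T 0)) (h : ∃ (G : Type) (_ : Group G), C G ∧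
    Nontrivial G) : ∃ D, IsSchunck D ∧ LL D C ∧ (¬ ∀ (G : Type) [Group G], D G → Subsingleton G) ∧
      ¬ ∀ (G : Type) [Group G], D G ↔ C G := by
  obtain ⟨p, hp, rfl⟩ := ident hC hL h
  obtain ⟨q, hq, hq'⟩ := Nat.exists_infinite_primes (p + 1)
  have : Fact p.Prime := ⟨hp⟩
  have : Fact q.Prime := ⟨hq'⟩
  have := hp.pos
  refine ⟨_, T_sch, below hL, fun a => not_subsingleton _ (a _ (TZ (p := q) (by omega))),
    fun a => ?_⟩
  have := (((a _).2 (TZ (p := p) (by omega))).2.2 (.ofAdd 1)).lt hp (by simp)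
  omega

theorem sch_iff : IsSchunck C ↔ (∀ (G : Type) [Group G], C G → Finite G ∧ Group.IsSolvable G) ∧
    (∀ (G H : Type) [Group G] [Group H], Nonempty (G ≃* H) → C G → C H) ∧
    (∀ (G : Type) [Group G] (N : Subgroup G) [N.Normal], C G → C (G ⧸ N)) ∧
    (∀ (G : Type) [Group G] [Finite G], Group.IsSolvable G → (∀ (N : Subgroup G) [N.Normal],
      (∃ M : Subgroup (G ⧸ N), IsCoatom M ∧ M.normalCore = ⊥) → C (G ⧸ N)) → C G) := by
  refine ⟨fun h => ⟨h.1, fun G H _ _ ⟨e⟩ => h.2.1 _ _ e.toMonoidHom e.surjective,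
    fun G _ N _ => h.2.1 _ _ _ (mk'_surjective N), fun G _ _ a b => h.2.2 G ⟨‹_›, a⟩
      fun H _ f hf ⟨M, hM, e⟩ => ?_⟩, fun h => ⟨h.1, fun G H _ _ f hf a =>
        h.2.1 _ _ ⟨quotientKerEquivOfSurjective f hf⟩ (h.2.2.1 G _ a), fun G _ a b =>
          have := a.1; h.2.2.2 G a.2 fun N _ => b _ _ (mk'_surjective N)⟩⟩
  have i := quotientKerEquivOfSurjective f hf
  exact h.2.1 _ _ i.toMonoidHom i.surjective (b _ (prim_map (f := i.symm.toMonoidHom)
    i.symm.surjective hM (by rw [e]; exact (MonoidHom.ker_eq_bot_iff _).2 i.symm.injective)))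

theorem proj_iff {E : Subgroup G} : Proj C E ↔ ∀ (N : Subgroup G) [N.Normal],
    C (E.map (mk' N)) ∧ ∀ K : Subgroup (G ⧸ N), E.map (mk' N) ≤ K → C K → K = E.map (mk' N) :=
  ⟨fun h N _ => ⟨(h N).1, fun K a b => by_contra fun e => (h N).2 K (a.lt_of_ne' e) b⟩,
    fun h N _ => ⟨(h N).1, fun K a b => a.ne' ((h N).2 K a.le b)⟩⟩

end Pool.Agent.H.MP_08b069_al
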